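import Pool.Agent.W524.CM.NF
import Pool.Agent.W524.CM.LocMean

/-!
# The central value of `L(E, s)` and the means of the products of Birch and Swinnerton-Dyer

Let `K` be a number field (for this problem `K = ℚ`), `E : y² = x³ + a x + b` an elliptic curve,
`a, b ∈ 𝓞 K`, and let `N_v` be the number of affine points of `E` over the residue field at a prime
`v ∤ 2(4a³ + 27b²)`, of norm `q_v`. Let

`P(x) = ∏_{q_v ≤ x} (N_v + 1)/q_v · exp (∑_{√x < q_v ≤ x} ((q_v - N_v)² - 2 q_v)/(2 q_v²))`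

be the original product of Birch and Swinnerton-Dyer with the (bounded) correction by the squares of
the primes between `√x` and `x`, and let `F` be the `L`-function of `E` without the Euler factors at the
primes dividing `2(4a³ + 27b²)`. We assume that `F` is entire and of polynomial growth for `Re s > 1`; for
`K = ℚ` both are known (modularity). Let `M_l(x)` be the mean of `log P` over the interval `[x, l x]`,
`M(x)` the logarithmic mean over `[1, x]`, and `γ` Euler's constant.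

* Central value: `F` has no zeros with `Re s > 1` (the Riemann hypothesis) and `F(1) ≠ 0` iff `M` is bounded
  ABOVE iff `F(1) > 0` and `M_l(x) → - log F(1)` for every `l > 1`.
* Leading coefficient: the Riemann hypothesis together with `F(s)/(s - 1)^m → Λ > 0` is equivalent to
  `M_l(x) = m log log x + m γ - log Λ + o(1)` for one `l > 1`, or for all `l > 1`, and to
  `M(x) = m (log log x - 1) + m γ - log Λ + o(1)`.
* Order: the Riemann hypothesis with `ord_{s=1} F ≤ κ` is equivalent to one-sided bounds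
  `M_l(x) ≤ κ log log x + C` (one `l`) or `M(x) ≤ κ log log x + C`; the same for lower bounds and
  `ord_{s=1} F ≥ κ`, if `F` has no real zeros `> 1`.

So, for an elliptic curve over `ℚ`, the formula of Birch and Swinnerton-Dyer for `L(E, 1)`, in
conjunction with the Riemann hypothesis for `L(E, s)`, is equivalent to the convergence of the means of
`log P` over the intervals `[x, 2x]` to an explicit number.
-/

set_option autoImplicit false

namespace Pool.Agent.Results.MP_9c97e9_nt.MeanValueFormula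

open MeasureTheory Filter Topology NumberField IsDedekindDomain

noncomputable section

variable {K : Type} [Field K] [NumberField K]

/-- The number of affine points of `y² = x³ + a x + b` over the residue field at `v`. -/
def pointCount (a b : 𝓞 K) (v : HeightOneSpectrum (𝓞 K)) : ℕ :=
  Nat.card {q : (𝓞 K ⧸ v.asIdeal) × (𝓞 K ⧸ v.asIdeal) //
    q.2 ^ 2 = q.1 ^ 3 + Ideal.Quotient.mk v.asIdeal a * q.1 + Ideal.Quotient.mk v.asIdeal b}

/-- The primes not dividing `2 (4a³ + 27b²)`. -/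
def GoodPrime (a b : 𝓞 K) (v : HeightOneSpectrum (𝓞 K)) : Prop :=
  2 * (4 * a ^ 3 + 27 * b ^ 2) ∉ v.asIdeal

open Classical in
/-- The Euler factor at `v`. -/
def eulerFactor (a b : 𝓞 K) (s : ℂ) (v : HeightOneSpectrum (𝓞 K)) : ℂ :=
  if GoodPrime a b v then
    (1 - ((Ideal.absNorm v.asIdeal : ℂ) - (pointCount a b v : ℂ)) * (Ideal.absNorm v.asIdeal : ℂ) ^ (-s) +
      (Ideal.absNorm v.asIdeal : ℂ) ^ (1 - 2 * s))⁻¹ else 1

/-- `F` is entire and given by the Euler product over the good primes on `Re s > 2`. -/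
def IsLSeries (a b : 𝓞 K) (F : ℂ → ℂ) : Prop :=
  Differentiable ℂ F ∧ ∀ s : ℂ, 2 < s.re → HasProd (eulerFactor a b s) (F s)

/-- Polynomial growth for `Re s > 1`. -/
def PolynomialGrowth (F : ℂ → ℂ) : Prop :=
  ∃ (C : ℝ) (A : ℕ), ∀ s : ℂ, 1 < s.re → ‖F s‖ ≤ C * (1 + ‖s‖) ^ A

/-- The product of `(N_v + 1)/q_v` over the finitely many good primes with `q_v ≤ x`, multiplied by the
exponential of the sum of `((q_v - N_v)² - 2 q_v)/(2 q_v²)` over the good primes with `√x < q_v ≤ x`. -/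
def bsdProduct (a b : 𝓞 K) (x : ℝ) : ℝ :=
  (∏ᶠ v ∈ {v : HeightOneSpectrum (𝓞 K) | GoodPrime a b v ∧ (Ideal.absNorm v.asIdeal : ℝ) ≤ x},
    ((pointCount a b v : ℝ) + 1) / Ideal.absNorm v.asIdeal) *
  Real.exp (∑ᶠ v ∈ {v : HeightOneSpectrum (𝓞 K) | GoodPrime a b v ∧
      Real.sqrt x < Ideal.absNorm v.asIdeal ∧ (Ideal.absNorm v.asIdeal : ℝ) ≤ x},
    (((Ideal.absNorm v.asIdeal : ℝ) - pointCount a b v) ^ 2 - 2 * Ideal.absNorm v.asIdeal) /
      (2 * (Ideal.absNorm v.asIdeal : ℝ) ^ 2))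

/-- The mean of `log P` over `[x, l x]`. -/
def mean (a b : 𝓞 K) (l x : ℝ) : ℝ :=
  (∫ t in Set.Ioc x (l * x), Real.log (bsdProduct a b t)) / ((l - 1) * x)

/-- The logarithmic mean of `log P` over `[1, x]`. -/
def logMean (a b : 𝓞 K) (x : ℝ) : ℝ :=
  (∫ t in Set.Ioc 1 x, Real.log (bsdProduct a b t) / t) / Real.log x

/-- No zeros with `Re s > 1`. -/
def RiemannHyp (F : ℂ → ℂ) : Prop := ∀ s : ℂ, 1 < s.re → F s ≠ 0

/-- `F(s)/(s - 1)^m → Λ` as `s → 1`; for `Λ ≠ 0` and `F` analytic at `1`: the order of vanishing is `m` and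
the leading coefficient is `Λ`. -/
def HasLeading (F : ℂ → ℂ) (m : ℕ) (Λ : ℝ) : Prop :=
  Tendsto (fun s : ℂ => F s / (s - 1) ^ m) (𝓝[≠] 1) (𝓝 (Λ : ℂ))

theorem result (a b : 𝓞 K) (_hΔ : 4 * a ^ 3 + 27 * b ^ 2 ≠ 0) (F : ℂ → ℂ) (hL : IsLSeries a b F)
    (hG : PolynomialGrowth F) :
    -- the central value
    List.TFAE [
      RiemannHyp F ∧ F 1 ≠ 0,
      ∃ C : ℝ, ∀ᶠ x : ℝ in atTop, logMean a b x ≤ C,
      0 < (F 1).re ∧ F 1 = ((F 1).re : ℂ) ∧
        ∀ l : ℝ, 1 < l → Tendsto (mean a b l) atTop (𝓝 (-Real.log (F 1).re))] ∧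
    -- the leading coefficient
    (∀ (m : ℕ) (Λ : ℝ), 0 < Λ → List.TFAE [
      RiemannHyp F ∧ HasLeading F m Λ,
      ∀ l : ℝ, 1 < l → Tendsto (fun x => mean a b l x - m * Real.log (Real.log x)) atTop
        (𝓝 (m * Real.eulerMascheroniConstant - Real.log Λ)),
      ∃ l : ℝ, 1 < l ∧ Tendsto (fun x => mean a b l x - m * Real.log (Real.log x)) atTop
        (𝓝 (m * Real.eulerMascheroniConstant - Real.log Λ)),
      Tendsto (fun x => logMean a b x - m * (Real.log (Real.log x) - 1)) atTop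
        (𝓝 (m * Real.eulerMascheroniConstant - Real.log Λ))]) ∧
    -- the order
    ∃ r : ℕ, analyticOrderAt F 1 = r ∧ ∀ κ : ℝ,
      List.TFAE [
        RiemannHyp F ∧ (r : ℝ) ≤ κ,
        ∃ l C : ℝ, 1 < l ∧ ∀ᶠ x : ℝ in atTop, mean a b l x ≤ κ * Real.log (Real.log x) + C,
        ∃ C : ℝ, ∀ᶠ x : ℝ in atTop, logMean a b x ≤ κ * Real.log (Real.log x) + C] ∧
      ((∀ x : ℝ, 1 < x → F x ≠ 0) → List.TFAE [
        RiemannHyp F ∧ κ ≤ r,
        ∃ l C : ℝ, 1 < l ∧ ∀ᶠ x : ℝ in atTop, κ * Real.log (Real.log x) - C ≤ mean a b l x,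
        ∃ C : ℝ, ∀ᶠ x : ℝ in atTop, κ * Real.log (Real.log x) - C ≤ logMean a b x]) := by
  have D := W524.CM.md a b hL.1 hL.2 hG
  have HN := W524.CM.s_nat
  have HE := W605.LCEin.ein
  obtain ⟨α, G, B, D', _, _⟩ := D.bs
  obtain ⟨r, hr⟩ := D'.order_finite hL.1
  have hlead : ∀ (m : ℕ) (Λ : ℝ), 0 < Λ → List.TFAE [
      RiemannHyp F ∧ HasLeading F m Λ,
      ∀ l : ℝ, 1 < l → Tendsto (fun x => mean a b l x - m * Real.log (Real.log x)) atTop
        (𝓝 (m * Real.eulerMascheroniConstant - Real.log Λ)),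
      ∃ l : ℝ, 1 < l ∧ Tendsto (fun x => mean a b l x - m * Real.log (Real.log x)) atTop
        (𝓝 (m * Real.eulerMascheroniConstant - Real.log Λ)),
      Tendsto (fun x => logMean a b x - m * (Real.log (Real.log x) - 1)) atTop
        (𝓝 (m * Real.eulerMascheroniConstant - Real.log Λ))] := by
    intro m Λ hΛ
    have key := D.lead_tfae' HN HE (m := m) hΛ
    tfae_have 1 ↔ 2 := key.out 0 1
    tfae_have 2 ↔ 3 := key.out 1 2
    tfae_have 3 ↔ 4 := key.out 2 4
    tfae_finish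
  have hup : ∀ κ : ℝ, List.TFAE [
        RiemannHyp F ∧ (r : ℝ) ≤ κ,
        ∃ l C : ℝ, 1 < l ∧ ∀ᶠ x : ℝ in atTop, mean a b l x ≤ κ * Real.log (Real.log x) + C,
        ∃ C : ℝ, ∀ᶠ x : ℝ in atTop, logMean a b x ≤ κ * Real.log (Real.log x) + C] := by
    intro κ
    have key := D.up_tfae' HN HE hr κ
    tfae_have 1 ↔ 2 := key.out 0 2
    tfae_have 2 ↔ 3 := key.out 2 4
    tfae_finish
  refine ⟨?_, hlead, r, hr, fun κ => ⟨hup κ, fun hne => ?_⟩⟩
  · -- the central value
    have hcont : Tendsto (fun s : ℂ => F s / (s - 1) ^ 0) (𝓝[≠] 1) (𝓝 (F 1)) := by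
      simp only [pow_zero, div_one]
      exact (hL.1 1).continuousAt.tendsto.mono_left nhdsWithin_le_nhds
    have hr0 : F 1 ≠ 0 ↔ r = 0 := by
      have h1 := (hL.1.analyticAt 1).analyticOrderAt_eq_zero
      rw [hr] at h1
      constructor
      · intro h
        exact_mod_cast h1.mpr h
      · intro h
        exact h1.mp (by exact_mod_cast h)
    tfae_have 1 → 3 := by
      rintro ⟨h1, h2⟩
      have h3 := hr0.mp h2
      obtain ⟨Λ, hΛ, hl⟩ := D.lead h1 hr
      rw [h3] at hl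
      have h4 : F 1 = (Λ : ℂ) := tendsto_nhds_unique hcont hl
      have h5 : (F 1).re = Λ := by rw [h4, Complex.ofReal_re]
      rw [h5]
      refine ⟨hΛ, h4, fun l hl' => ?_⟩
      have h7 : ∀ l : ℝ, 1 < l → Tendsto (fun x => mean a b l x - ((0 : ℕ) : ℝ) *
          Real.log (Real.log x)) atTop
          (𝓝 (((0 : ℕ) : ℝ) * Real.eulerMascheroniConstant - Real.log Λ)) :=
        ((hlead 0 Λ hΛ).out 0 1).mp (show RiemannHyp F ∧ HasLeading F 0 Λ from ⟨h1, hl⟩)
      have h6 := h7 l hl'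
      simpa using h6
    tfae_have 3 → 1 := by
      rintro ⟨h1, h2, h3⟩
      have h4 : RiemannHyp F ∧ HasLeading F 0 (F 1).re := by
        refine ((hlead 0 _ h1).out 0 1).mpr fun l hl => ?_
        simpa using h3 l hl
      refine ⟨h4.1, fun h5 => ?_⟩
      rw [h5, Complex.zero_re] at h1
      exact lt_irrefl _ h1
    tfae_have 1 ↔ 2 := by
      have h1 := (hup 0).out 0 2
      simp only [zero_mul, zero_add] at h1
      rw [← h1, hr0]
      constructor
      · rintro ⟨h2, h3⟩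
        exact ⟨h2, by rw [h3, Nat.cast_zero]⟩
      · rintro ⟨h2, h3⟩
        have h4 : r ≤ 0 := by exact_mod_cast h3
        exact ⟨h2, by omega⟩
    tfae_finish
  · have key := D.low_tfae' HN HE hr κ hne
    tfae_have 1 ↔ 2 := key.out 0 2
    tfae_have 2 ↔ 3 := key.out 2 4
    tfae_finish

end

end Pool.Agent.Results.MP_9c97e9_nt.MeanValueFormula
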