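import Mathlib
import Pool.Agent.W262.SH.Def
import Pool.Agent.W262.SQ.Fam

/-!
# All moments of `2 ^ rank * #Ш[2]` of the quadratic twists by `D(p)`, `p` prime

Let `D(t) = b * ∏_{i < m} P_i(t)`, the `P_i` polynomials with integer coefficients of degree one or
two, irreducible over `ℚ`, pairwise not proportional and with `P_i(0) ≠ 0`, and let `A`, `B` be
different nonzero integers. For the quadratic twists `E_p : y² = x (x - A D(p)) (x - B D(p))` of the
curve `y² = x (x - A) (x - B)` by `D(p)` the average over the primes `p` of an interval `(N, N + M]`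
with `N ≤ M ^ L` of `(2 ^ rank E_p(ℚ) * #Ш(E_p/ℚ)[2]) ^ e` is bounded, for every `e` and `L` (with
`M / log M` instead of the number of the primes).
-/

namespace Pool.Agent.Results.MP_9c97e9_nt.PrimeTwists

open Finset Polynomial

open Pool.Agent.W262.SH (E Sha2)

/-- the quadratic twist of `y² = x (x - A) (x - B)` by `d` -/
def Tw (A B d : ℤ) : WeierstrassCurve ℚ := E (d * A) (d * B)

/-- `2 ^ rank * #Ш[2]` -/
noncomputable def wt (W : WeierstrassCurve ℚ) : ℝ :=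
  (2 : ℝ) ^ Module.finrank ℤ W.toAffine.Point * Nat.card (Sha2 W)

/-- `D(t) = b * ∏ i, P i (t)` -/
def D {m : ℕ} (b : ℤ) (P : Fin m → ℤ[X]) (t : ℤ) : ℤ := b * ∏ i, (P i).eval t

theorem D_eq {m : ℕ} (b : ℤ) (P : Fin m → ℤ[X]) (t : ℤ) (i : Fin 1) :
    Pool.Agent.W262.SQ.Dp (fun _ : Fin 1 => b) (fun _ : Fin m => 0) P t i = D b P t := by
  unfold Pool.Agent.W262.SQ.Dp D
  rw [Finset.filter_true_of_mem fun _ _ => Subsingleton.elim _ _]

/-- All moments of `2 ^ rank E_p(ℚ) * #Ш(E_p/ℚ)[2]` over the primes of short intervals are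
bounded. -/
theorem result (m : ℕ) (A B b : ℤ) (P : Fin m → ℤ[X]) (hA : A ≠ 0) (hB : B ≠ 0) (hAB : A ≠ B)
    (hb : b ≠ 0) (hdeg : ∀ i, (P i).natDegree = 1 ∨ (P i).natDegree = 2)
    (hirr : ∀ i, Irreducible ((P i).map (Int.castRingHom ℚ)))
    (hne : ∀ i j, i ≠ j →
      ¬ Associated ((P i).map (Int.castRingHom ℚ)) ((P j).map (Int.castRingHom ℚ)))
    (h0 : ∀ i, (P i).eval 0 ≠ 0) (e L : ℕ) :
    ∃ C : ℝ, ∀ N M : ℕ, 2 ≤ M → N ≤ M ^ L →
      ∑ p ∈ (Ioc N (N + M)).filter (fun p : ℕ => p.Prime ∧ D b P p ≠ 0),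
        wt (Tw A B (D b P p)) ^ e ≤ C * (M / Real.log M) := by
  classical
  have hw : ∀ a c : ℤ, wt (E a c) = Pool.Agent.W262.SH.wt a c := by
    intro a c
    unfold wt Pool.Agent.W262.SH.wt
    rw [Pool.Agent.W262.SH.sha2_eq]
  obtain ⟨C, -, hC⟩ := Pool.Agent.W262.SQ.sB (max e 1) (le_max_right _ _) A B (fun _ : Fin 1 => b)
    (fun _ : Fin m => 0) P ⟨hdeg, hirr, hne⟩ h0 hA hB hAB (fun _ => hb) L
  refine ⟨C, fun N M hM hN => le_trans ?_ (hC (N, M) ⟨hM, hN⟩ {0})⟩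
  simp only [D_eq, forall_const, prod_singleton]
  refine sum_le_sum fun t ht => ?_
  have ht' := (mem_filter.1 ht).2.2
  unfold Tw
  rw [hw]
  exact pow_le_pow_right₀ (Pool.Agent.W262.SQ.one_le_wt (mul_ne_zero ht' hA) (mul_ne_zero ht' hB)
    (fun h => hAB (mul_left_cancel₀ ht' h))) (le_max_left e 1)

end Pool.Agent.Results.MP_9c97e9_nt.PrimeTwists
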